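import Pool.Agent.EVF.StmtsG

/-!
# Row GFI: the slices with multiple roots are finite in number
-/

namespace Pool.Agent.EVF.H91

open Polynomial
open Helper90Frey

/-- the polynomial in `Y` with coefficients in `ℂ[x]` -/
noncomputable def bi (F : MvPolynomial (Fin 2) ℂ) : Polynomial (Polynomial ℂ) :=
  MvPolynomial.aeval ![C (X : Polynomial ℂ), X] F

theorem bi_map (F : MvPolynomial (Fin 2) ℂ) (x : ℂ) :
    (bi F).map (Polynomial.evalRingHom x) = slice F x := by
  unfold bi slice
  induction F using MvPolynomial.induction_on with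
  | C a =>
    rw [MvPolynomial.aeval_C, MvPolynomial.aeval_C, Polynomial.algebraMap_apply,
      Polynomial.map_C, Polynomial.algebraMap_apply, Polynomial.coe_evalRingHom, Polynomial.eval_C]
  | add p q hp hq => rw [map_add, map_add, Polynomial.map_add, hp, hq]
  | mul_X p i hp =>
    rw [map_mul, map_mul, Polynomial.map_mul, hp, MvPolynomial.aeval_X, MvPolynomial.aeval_X]
    congr 1
    fin_cases i
    · simp
    · simp

/-- the resultant of `F` and its derivative in `Y` -/
noncomputable def rs (F : MvPolynomial (Fin 2) ℂ) (e : ℕ) : Polynomial ℂ :=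
  Polynomial.resultant (bi F) (derivative (bi F)) e (e - 1)

theorem rs_eval (F : MvPolynomial (Fin 2) ℂ) (e : ℕ) (x : ℂ) :
    (rs F e).eval x = Polynomial.resultant (slice F x) (derivative (slice F x)) e (e - 1) := by
  have h := Polynomial.resultant_map_map (bi F) (derivative (bi F)) e (e - 1)
    (Polynomial.evalRingHom x)
  rw [bi_map, ← Polynomial.derivative_map, bi_map] at h
  rw [h]
  rfl

theorem card_iff (F : MvPolynomial (Fin 2) ℂ) (e : ℕ) (l : ℂ)
    (hF : Lead F e l) (x : ℂ) : (rts F x).card = e ↔ (slice F x).Separable := by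
  classical
  have h1 : (rts F x).card = e ↔ (slice F x).roots.Nodup := by
    rw [← Multiset.toFinset_card_eq_card_iff_nodup, hF.card_roots]
    rfl
  rw [h1, Polynomial.nodup_roots_iff_of_splits (hF.ne_zero x) (IsAlgClosed.splits _)]

theorem rs_iff (F : MvPolynomial (Fin 2) ℂ) (e : ℕ) (l : ℂ) (he : 1 ≤ e)
    (hF : Lead F e l) (x : ℂ) : (rs F e).eval x ≠ 0 ↔ (slice F x).Separable := by
  have hd : (slice F x).natDegree = e := (hF.2 x).1
  have hd' : (derivative (slice F x)).natDegree = e - 1 := by
    rw [Polynomial.natDegree_derivative, hd]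
  rw [rs_eval]
  constructor
  · intro h
    obtain ⟨p, q, -, -, hpq⟩ := Polynomial.exists_mul_add_mul_eq_C_resultant (m := e) (n := e - 1)
      (slice F x) (derivative (slice F x)) hd.le hd'.le (Or.inl (by omega))
    set ρ := Polynomial.resultant (slice F x) (derivative (slice F x)) e (e - 1) with hρ
    refine ⟨C ρ⁻¹ * p, C ρ⁻¹ * q, ?_⟩
    have h7 : C ρ⁻¹ * (slice F x * p + derivative (slice F x) * q) = 1 := by
      rw [hpq, ← Polynomial.C_mul, inv_mul_cancel₀ h, Polynomial.C_1]
    rw [← h7]
    ring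
  · intro h
    have h4 := Polynomial.resultant_ne_zero _ _ h
    rwa [hd, hd'] at h4

/-- GFI -/
theorem gfi : GfiStmt := by
  intro F e l he hF hex
  obtain ⟨x₀, hx₀⟩ := hex
  have h0 : rs F e ≠ 0 := by
    intro h
    have h1 := (rs_iff F e l he hF x₀).2 ((card_iff F e l hF x₀).1 hx₀)
    rw [h, Polynomial.eval_zero] at h1
    exact h1 rfl
  refine Set.Finite.subset (Polynomial.finite_setOf_isRoot h0) ?_
  intro x hx
  rw [Set.mem_setOf_eq] at hx ⊢
  by_contra h
  exact hx ((card_iff F e l hF x).2 ((rs_iff F e l he hF x).1 h))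

end Pool.Agent.EVF.H91
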